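import Pool.Agent.NH24.GD.H
import Pool.Agent.R404.MZ.Asy
import Pool.Agent.Y777.AM.St

/-!
# Small isobaric relations between multiple zeta values near a rational grid are consequences of the
stuffle product
-/

set_option autoImplicit false

namespace Pool.Agent.NH24.GP

open Finset
open Pool.Agent.R404.MZ (rpow_large asyH)
open Pool.Agent.Y760.ZG (mz)
open Pool.Agent.Y777.AM (ht)
open Pool.Agent.Y760.ZF (sti stil Cl mz_prod stil_count)
open Pool.Agent.Y777.AM.St (Ad ex ex_ne ex_nil prod_ex)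
open Pool.Agent.NH24.GD (Near powers FF)

/-- the arguments are near multiples of `k / b` -/
def NW (b k r : ℕ) (w : List ℕ) : Prop :=
  ∀ x ∈ w, ∃ a : ℕ, 1 ≤ a ∧ a * k ≤ b * x + r ∧ b * x ≤ a * k + r

lemma NW.mono {b k r r' : ℕ} {w : List ℕ} (h : NW b k r w) (hr : r ≤ r') : NW b k r' w := by
  intro x hx
  obtain ⟨a, h1, h2, h3⟩ := h x hx
  exact ⟨a, h1, by omega, by omega⟩

lemma NW_cons {b k r : ℕ} {x : ℕ} {w : List ℕ} :
    NW b k r (x :: w) ↔ (∃ a : ℕ, 1 ≤ a ∧ a * k ≤ b * x + r ∧ b * x ≤ a * k + r) ∧ NW b k r w := by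
  constructor
  · intro h
    exact ⟨h x List.mem_cons_self, fun y hy => h y (List.mem_cons_of_mem _ hy)⟩
  · rintro ⟨h1, h2⟩ y hy
    rcases List.mem_cons.1 hy with rfl | hy
    · exact h1
    · exact h2 y hy

lemma sti_near {b k r r' : ℕ} (u v : List ℕ) : NW b k r u → NW b k r' v →
    ∀ w ∈ sti u v, NW b k (r + r') w ∧ w.sum = u.sum + v.sum := by
  induction u, v using sti.induct with
  | case1 v =>
    intro _ hv w hw
    rw [sti, List.mem_singleton] at hw
    subst hw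
    exact ⟨hv.mono (by omega), by simp⟩
  | case2 i u =>
    intro hu _ w hw
    rw [sti, List.mem_singleton] at hw
    subst hw
    exact ⟨hu.mono (by omega), by simp⟩
  | case3 i u j v ih1 ih2 ih3 =>
    intro hu hv w hw
    obtain ⟨hi, hu'⟩ := NW_cons.1 hu
    obtain ⟨hj, hv'⟩ := NW_cons.1 hv
    rw [sti, List.mem_append, List.mem_append, List.mem_map, List.mem_map, List.mem_map] at hw
    rcases hw with (⟨w', hw', rfl⟩ | ⟨w', hw', rfl⟩) | ⟨w', hw', rfl⟩
    · obtain ⟨h1, h2⟩ := ih1 hu' hv w' hw'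
      obtain ⟨a, a1, a2, a3⟩ := hi
      refine ⟨NW_cons.2 ⟨⟨a, a1, by omega, by omega⟩, h1⟩, ?_⟩
      simp only [List.sum_cons] at h2 ⊢
      omega
    · obtain ⟨h1, h2⟩ := ih2 hu hv' w' hw'
      obtain ⟨a, a1, a2, a3⟩ := hj
      refine ⟨NW_cons.2 ⟨⟨a, a1, by omega, by omega⟩, h1⟩, ?_⟩
      simp only [List.sum_cons] at h2 ⊢
      omega
    · obtain ⟨h1, h2⟩ := ih3 hu' hv' w' hw'
      obtain ⟨a, a1, a2, a3⟩ := hi
      obtain ⟨a', a1', a2', a3'⟩ := hj
      refine ⟨NW_cons.2 ⟨⟨a + a', by omega, ?_, ?_⟩, h1⟩, ?_⟩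
      · rw [add_mul, mul_add]
        omega
      · rw [add_mul, mul_add]
        omega
      · simp only [List.sum_cons] at h2 ⊢
        omega

lemma stil_near {b k r : ℕ} (M : List (List ℕ)) (hM : ∀ u ∈ M, NW b k r u) :
    ∀ w ∈ stil M, NW b k (M.length * r) w ∧ w.sum = (M.map List.sum).sum := by
  induction M with
  | nil =>
    intro w hw
    rw [stil, List.mem_singleton] at hw
    subst hw
    exact ⟨fun x hx => absurd hx List.not_mem_nil, by simp⟩
  | cons u M ih =>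
    intro w hw
    rw [stil, List.mem_flatMap] at hw
    obtain ⟨v, hv, hw⟩ := hw
    obtain ⟨h1, h2⟩ := ih (fun u hu => hM u (List.mem_cons_of_mem _ hu)) v hv
    obtain ⟨h3, h4⟩ := sti_near u v (hM u List.mem_cons_self) h1 w hw
    refine ⟨h3.mono (le_of_eq ?_), ?_⟩
    · rw [List.length_cons]
      ring
    · rw [h4, h2, List.map_cons, List.sum_cons]

lemma NW.length {b k r : ℕ} {w : List ℕ} (h : NW b k r w) : w.length * (k - r) ≤ b * w.sum := by
  induction w with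
  | nil => simp
  | cons x w ih =>
    obtain ⟨⟨a, a1, a2, a3⟩, h2⟩ := NW_cons.1 h
    have h3 := ih h2
    have h4 : k ≤ a * k := Nat.le_mul_of_pos_left _ a1
    rw [List.length_cons, List.sum_cons, Nat.succ_mul, mul_add]
    omega

lemma M_length {b k r : ℕ} {M : List (List ℕ)} (h : ∀ u ∈ M, u ≠ [] ∧ NW b k r u) :
    M.length * (k - r) ≤ b * (M.map List.sum).sum := by
  induction M with
  | nil => simp
  | cons u M ih =>
    have h3 := ih fun u hu => h u (List.mem_cons_of_mem _ hu)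
    obtain ⟨h1, h2⟩ := h u List.mem_cons_self
    have h4 := h2.length
    have h5 : 0 < u.length := List.length_pos_of_ne_nil h1
    have h6 : k - r ≤ u.length * (k - r) := Nat.le_mul_of_pos_left _ h5
    rw [List.length_cons, List.map_cons, List.sum_cons, Nat.succ_mul, mul_add]
    omega

lemma le_b {b k r n : ℕ} (hr : (b + 1) * r < k) (h : n * (k - r) ≤ b * k) : n ≤ b := by
  by_contra hcon
  push Not at hcon
  have h1 : (b + 1) * (k - r) ≤ b * k := (Nat.mul_le_mul_right _ hcon).trans h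
  have h2 : r ≤ (b + 1) * r := Nat.le_mul_of_pos_left _ (by omega)
  obtain ⟨d, hd⟩ : ∃ d, k = r + d := ⟨k - r, by omega⟩
  rw [hd, Nat.add_sub_cancel_left] at h1
  rw [hd] at hr
  nlinarith

section

variable {A : Type} [CommRing A]

lemma list_countL (L : List (List ℕ)) (F : List ℕ → A) (s : Finset (List ℕ))
    (hs : ∀ w ∈ L, w ∈ s) :
    (L.map F).sum = ∑ w ∈ s, ((L.countP (· = w) : ℕ) : A) * F w := by
  induction L with
  | nil => simp
  | cons a L ih =>
    have hs' : ∀ w ∈ L, w ∈ s := fun w hw => hs w (List.mem_cons_of_mem _ hw)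
    rw [List.map_cons, List.sum_cons, ih hs']
    have h1 : ∀ w ∈ s, (((a :: L).countP (· = w) : ℕ) : A) * F w =
        ((L.countP (· = w) : ℕ) : A) * F w + (if a = w then F w else 0) := by
      intro w _
      rw [List.countP_cons]
      by_cases h : a = w
      · simp only [h, decide_true, if_true]
        push_cast
        ring
      · simp only [h, decide_false, if_false, Bool.false_eq_true]
        push_cast
        ring
    rw [sum_congr rfl h1, sum_add_distrib, sum_ite_eq, if_pos (hs a List.mem_cons_self), add_comm]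

end

section

variable {ι : Type} (s : Finset ι) (M : ι → List (List ℕ)) (c : ι → ℤ)

/-- the indices of the expansion -/
def Wo : Finset (List ℕ) := s.biUnion fun i => (stil (M i)).toFinset

/-- the coefficients of the expansion -/
def Co (v : List ℕ) : ℤ := ∑ i ∈ s, c i * ((stil (M i)).countP (· = v) : ℤ)

lemma expand {A : Type} [CommRing A] (F : List ℕ → A)
    (hF : ∀ i ∈ s, ((M i).map F).prod = ((stil (M i)).map F).sum) :
    ∑ i ∈ s, (c i : A) * ((M i).map F).prod = ∑ v ∈ Wo s M, (Co s M c v : A) * F v := by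
  have h1 : ∀ i ∈ s, (c i : A) * ((M i).map F).prod =
      ∑ v ∈ Wo s M, (c i : A) * ((stil (M i)).countP (· = v) : A) * F v := by
    intro i hi
    rw [hF i hi, list_countL (stil (M i)) F (Wo s M)
      (fun v hv => mem_biUnion.2 ⟨i, hi, List.mem_toFinset.2 hv⟩), mul_sum]
    exact sum_congr rfl fun v _ => by rw [mul_assoc]
  rw [sum_congr rfl h1, sum_comm]
  refine sum_congr rfl fun v _ => ?_
  rw [← sum_mul, Co]
  push_cast
  rfl

lemma Co_length {R : ℕ} (hR : ∀ i ∈ s, (stil (M i)).length ≤ R) :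
    ∑ v ∈ Wo s M, |(Co s M c v : ℝ)| ≤ R * ∑ i ∈ s, |(c i : ℝ)| := by
  calc ∑ v ∈ Wo s M, |(Co s M c v : ℝ)|
      ≤ ∑ v ∈ Wo s M, ∑ i ∈ s, |(c i : ℝ)| * ((stil (M i)).countP (· = v) : ℝ) := by
        refine sum_le_sum fun v _ => ?_
        rw [Co]
        push_cast
        refine (abs_sum_le_sum_abs _ _).trans (sum_le_sum fun i _ => ?_)
        rw [abs_mul, Nat.abs_cast]
    _ = ∑ i ∈ s, |(c i : ℝ)| * ∑ v ∈ Wo s M, ((stil (M i)).countP (· = v) : ℝ) := by
        rw [sum_comm]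
        exact sum_congr rfl fun i _ => by rw [mul_sum]
    _ ≤ ∑ i ∈ s, |(c i : ℝ)| * R := by
        refine sum_le_sum fun i hi => mul_le_mul_of_nonneg_left ?_ (abs_nonneg _)
        have h1 := list_countL (A := ℝ) (stil (M i)) (fun _ => 1) (Wo s M)
          (fun v hv => mem_biUnion.2 ⟨i, hi, List.mem_toFinset.2 hv⟩)
        simp only [mul_one, List.map_const', List.sum_replicate, nsmul_eq_mul] at h1
        rw [← h1]
        exact_mod_cast hR i hi
    _ = _ := by rw [← sum_mul, mul_comm]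

end

/-- **small isobaric relations are consequences of the stuffle product** -/
theorem transfer {b : ℕ} (hb : 2 ≤ b) {t g e : ℝ} (κ C : ℝ) (ht0 : 0 < t) (hg : 0 < g)
    (h : ((b : ℝ) - 1) * t + g < 1) (he : ((b : ℝ) - 1) * t < b * e)
    (mzeq : Pool.Agent.NH24.GD.mzv = mz) :
    ∃ k0 : ℕ, ∀ k : ℕ, k0 ≤ k →
      ∀ (ι : Type) (s : Finset ι) (M : ι → List (List ℕ)),
      (∀ i ∈ s, (∀ u ∈ M i, u ≠ [] ∧ NW b k ⌊(k : ℝ) ^ t⌋₊ u) ∧ ((M i).map List.sum).sum = k) →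
      ∀ c : ι → ℤ, ∑ i ∈ s, |(c i : ℝ)| ≤ (2 : ℝ) ^ ((k : ℝ) ^ g) →
      ∀ H : Finset (List ℕ), (∀ h ∈ H, (∀ m ∈ h, 1 ≤ m) ∧ (∀ x ∈ h.head?, 2 ≤ x) ∧
        (h.sum : ℝ) ≤ κ * k ∧ e * k ≤ ht h) → ∀ β : List ℕ → ℝ, (∀ h ∈ H, |β h| ≤ C ^ k) →
      |∑ i ∈ s, (c i : ℝ) * ((M i).map mz).prod - ∑ h ∈ H, β h * mz h| ≤ ((k : ℝ) ^ (e * k))⁻¹ →
      (∀ v ∈ Wo s M, Co s M c v = 0) ∧
      ∑ i ∈ s, (c i : ℝ) * ((M i).map mz).prod = 0 ∧
      ∀ (A : Type) [CommRing A] (Z : List ℕ → A),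
        (∀ u v, Ad u → Ad v → Z u * Z v = ((sti u v).map Z).sum) →
        ∑ i ∈ s, (c i : A) * ((M i).map Z).prod = 0 := by
  classical
  have hb0 : (2 : ℝ) ≤ b := by exact_mod_cast hb
  -- larger parameters
  obtain ⟨ρ, hρ0, hρ1, hρ2⟩ : ∃ ρ : ℝ, 0 < ρ ∧ (b : ℝ) * ρ < 1 - (((b : ℝ) - 1) * t + g) ∧
      (b : ℝ) * ρ < (b * e - ((b : ℝ) - 1) * t) / 2 := by
    obtain ⟨x, hx0, hx1⟩ : ∃ x : ℝ, 0 < x ∧
        x < min (1 - (((b : ℝ) - 1) * t + g)) ((b * e - ((b : ℝ) - 1) * t) / 2) :=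
      exists_between (lt_min (by linarith) (by linarith))
    rw [lt_min_iff] at hx1
    refine ⟨x / b, by positivity, ?_, ?_⟩
    · rw [mul_div_cancel₀ _ (by linarith : (b : ℝ) ≠ 0)]
      exact hx1.1
    · rw [mul_div_cancel₀ _ (by linarith : (b : ℝ) ≠ 0)]
      exact hx1.2
  obtain ⟨t', ht'⟩ : ∃ t' : ℝ, t' = t + ρ := ⟨_, rfl⟩
  obtain ⟨g', hg'⟩ : ∃ g' : ℝ, g' = g + ρ := ⟨_, rfl⟩
  have h1 : ((b : ℝ) - 1) * t' + g' < 1 := by
    rw [ht', hg']
    nlinarith
  have ht'1 : t' < 1 := by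
    have : (b : ℝ) - 1 ≥ 1 := by linarith
    nlinarith
  obtain ⟨e', he1, he2⟩ : ∃ e', ((b : ℝ) - 1) * t' / b < e' ∧ e' < e := by
    refine exists_between ?_
    rw [div_lt_iff₀ (by linarith), ht']
    nlinarith
  obtain ⟨δ, hδ1, hδ2⟩ : ∃ δ, e' < δ ∧ δ < e := exists_between he2
  have he'0 : 0 < e' := lt_of_le_of_lt (by
    apply div_nonneg
    · apply mul_nonneg <;> linarith
    · linarith) he1
  rw [div_lt_iff₀ (by linarith)] at he1
  obtain ⟨k1, h2⟩ := powers hb (by linarith : (0 : ℝ) < t') (by linarith : (0 : ℝ) < g') h1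
    (by linarith : ((b : ℝ) - 1) * t' < b * e')
  obtain ⟨k2, h3⟩ := asyH κ C δ e (by linarith) hδ2
  obtain ⟨k3, h4⟩ := rpow_large (e := ρ) hρ0 ((b : ℝ) + b * b * b * 2 + 2)
  obtain ⟨k4, h5⟩ := rpow_large (e := δ - e') (by linarith) (2 : ℝ)
  obtain ⟨k5, h6⟩ := rpow_large (e := 1 - t) (by nlinarith) ((b : ℝ) + 2)
  refine ⟨max (max k1 k2) (max (max k3 k4) (max k5 (2 * (b * (b * b + 2)) + 2))), fun k hk ι s M hM c hc H hH
    β hβ hsmall => ?_⟩
  have hkbig : 2 * (b * (b * b + 2)) + 2 ≤ k := by omega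
  have hk1 : 1 ≤ k := by omega
  have hkp : (0 : ℝ) < k := by exact_mod_cast hk1
  have hkone : (1 : ℝ) ≤ k := by exact_mod_cast hk1
  obtain ⟨r, hr⟩ : ∃ r, r = ⌊(k : ℝ) ^ t⌋₊ := ⟨_, rfl⟩
  have hrk : (r : ℝ) ≤ (k : ℝ) ^ t := by
    rw [hr]
    exact Nat.floor_le (by positivity)
  -- the radius is small
  have hrsmall : (b + 1) * r < k := by
    have e1 := h6 k (by omega)
    have e2 : (k : ℝ) = (k : ℝ) ^ (1 - t) * (k : ℝ) ^ t := by
      rw [← Real.rpow_add hkp]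
      simp
    have e3 : (0 : ℝ) < (k : ℝ) ^ t := by positivity
    have e4 : ((b : ℝ) + 1) * r < k := by
      calc ((b : ℝ) + 1) * r ≤ (b + 1) * (k : ℝ) ^ t := by gcongr
        _ < (b + 2) * (k : ℝ) ^ t := by nlinarith
        _ ≤ (k : ℝ) ^ (1 - t) * (k : ℝ) ^ t := mul_le_mul_of_nonneg_right e1 e3.le
        _ = k := e2.symm
    exact_mod_cast e4
  have hr' : b * r ≤ ⌊(k : ℝ) ^ t'⌋₊ := by
    refine Nat.le_floor ?_
    push_cast
    have e1 := h4 k (by omega)
    have e2 : (k : ℝ) ^ t' = (k : ℝ) ^ ρ * (k : ℝ) ^ t := by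
      rw [← Real.rpow_add hkp, ht']
      congr 1
      ring
    rw [e2]
    refine mul_le_mul (le_trans ?_ e1) hrk (Nat.cast_nonneg _) (by positivity)
    have : (0 : ℝ) ≤ (b : ℝ) * b * b * 2 := by positivity
    linarith
  rw [← hr] at hM
  have hlenM : ∀ i ∈ s, (M i).length ≤ b := fun i hi =>
    le_b hrsmall ((M_length (hM i hi).1).trans (by rw [(hM i hi).2]))
  have hsumu : ∀ i ∈ s, ∀ u ∈ M i, u.sum ≤ k := by
    intro i hi u hu
    rw [← (hM i hi).2]
    exact List.single_le_sum (by simp) _ (List.mem_map_of_mem hu)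
  have hlenu : ∀ i ∈ s, ∀ u ∈ M i, u.length ≤ b := fun i hi u hu =>
    le_b hrsmall ((((hM i hi).1 u hu).2.length).trans (Nat.mul_le_mul_left _ (hsumu i hi u hu)))
  have hwo : Near b k ⌊(k : ℝ) ^ t'⌋₊ (Wo s M) := by
    intro w hw
    rw [Wo, mem_biUnion] at hw
    obtain ⟨i, hi, hw⟩ := hw
    rw [List.mem_toFinset] at hw
    obtain ⟨e1, e2⟩ := stil_near (M i) (fun u hu => ((hM i hi).1 u hu).2) w hw
    refine ⟨by rw [e2, (hM i hi).2], ?_⟩
    exact e1.mono ((Nat.mul_le_mul_right _ (hlenM i hi)).trans hr')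
  -- the number of words
  have hst : ∀ i ∈ s, (stil (M i)).length ≤ 3 ^ (b * b * b) := by
    intro i hi
    refine (stil_count b (M i) (fun u hu => hlenu i hi u hu)).2.trans ?_
    rw [← pow_mul]
    refine Nat.pow_le_pow_right (by norm_num) ?_
    have := hlenM i hi
    exact Nat.mul_le_mul (Nat.mul_le_mul_right _ this) this
  have hsize : ∑ w ∈ Wo s M, |(Co s M c w : ℝ)| ≤ (2 : ℝ) ^ ((k : ℝ) ^ g') := by
    refine (Co_length s M c hst).trans ?_
    have e0 : (k : ℝ) ^ g' = (k : ℝ) ^ ρ * (k : ℝ) ^ g := by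
      rw [← Real.rpow_add hkp, hg']
      congr 1
      ring
    have e5 : 1 ≤ (k : ℝ) ^ g := Real.one_le_rpow hkone hg.le
    have e6 := h4 k (by omega)
    have e7 : (k : ℝ) ^ g + b * b * b * 2 ≤ (k : ℝ) ^ g' := by
      rw [e0]
      have e8 : (0 : ℝ) ≤ (b : ℝ) * b * b * 2 := by positivity
      have e9 := mul_le_mul_of_nonneg_right e6 (by linarith : 0 ≤ (k : ℝ) ^ g)
      refine le_trans ?_ e9
      nlinarith
    have e2 : ((3 ^ (b * b * b) : ℕ) : ℝ) ≤ (2 : ℝ) ^ (b * b * b * 2 : ℝ) := by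
      push_cast
      have e3 : (2 : ℝ) ^ (b * b * b * 2 : ℝ) = (4 : ℝ) ^ (b * b * b) := by
        rw [show (4 : ℝ) = 2 ^ 2 by norm_num, ← pow_mul, ← Real.rpow_natCast]
        congr 1
        push_cast
        ring
      rw [e3]
      exact pow_le_pow_left₀ (by norm_num) (by norm_num) _
    calc ((3 ^ (b * b * b) : ℕ) : ℝ) * ∑ i ∈ s, |(c i : ℝ)|
        ≤ (2 : ℝ) ^ (b * b * b * 2 : ℝ) * (2 : ℝ) ^ ((k : ℝ) ^ g) := by
          refine mul_le_mul e2 hc (sum_nonneg fun _ _ => abs_nonneg _) (by positivity)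
      _ = (2 : ℝ) ^ ((k : ℝ) ^ g + b * b * b * 2) := by
          rw [← Real.rpow_add two_pos]
          congr 1
          ring
      _ ≤ _ := Real.rpow_le_rpow_of_exponent_le one_le_two e7
  -- the expansion of the real values
  have harg : ∀ i ∈ s, ∀ u ∈ M i, ∀ x ∈ u, b * b + 2 ≤ x := by
    intro i hi u hu x hx
    obtain ⟨a, a1, a2, a3⟩ := ((hM i hi).1 u hu).2 x hx
    by_contra hcon
    push Not at hcon
    have e1 : k ≤ a * k := Nat.le_mul_of_pos_left _ a1
    have e2 : b * x ≤ b * (b * b + 2) := Nat.mul_le_mul_left _ hcon.le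
    have e3 : 2 * r ≤ (b + 1) * r := Nat.mul_le_mul_right _ (by omega)
    omega
  have hCl : ∀ i ∈ s, ∀ u ∈ M i, Cl (b * b + 2) k b u := by
    intro i hi u hu
    refine ⟨hlenu i hi u hu, fun m hm => ⟨?_, ?_⟩, fun x hx => ?_⟩
    · have := harg i hi u hu m hm
      omega
    · have e1 : m ≤ u.sum := List.single_le_sum (by simp) _ hm
      exact_mod_cast e1.trans (hsumu i hi u hu)
    · exact harg i hi u hu x (List.mem_of_mem_head? hx)
  have hreal := expand s M c (A := ℝ) mz (fun i hi => by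
    refine mz_prod (n := b * b + 2) (K := (k : ℝ)) hkp.le (r := b) _ (hCl i hi) ?_
    have := Nat.mul_le_mul_right b (hlenM i hi)
    omega)
  have hzero : ∀ v ∈ Wo s M, Co s M c v = 0 := by
    by_contra hcon
    push Not at hcon
    have g1 := h2 k (by omega) (Wo s M) hwo (Co s M c) hcon (fun w hw => by
      refine le_trans ?_ hsize
      exact single_le_sum (f := fun w => |(Co s M c w : ℝ)|) (fun _ _ => abs_nonneg _) hw)
    have g2 : FF (Wo s M) (Co s M c) = ∑ v ∈ Wo s M, (Co s M c v : ℝ) * mz v := by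
      rw [← mzeq]
      rfl
    rw [g2, ← hreal] at g1
    have g3 := h3 k (by omega) H hH β hβ
    have g4 := abs_sub_abs_le_abs_sub (∑ i ∈ s, (c i : ℝ) * ((M i).map mz).prod) (∑ h ∈ H, β h * mz h)
    have g5 : ((k : ℝ) ^ (e * k))⁻¹ ≤ ((k : ℝ) ^ (δ * k))⁻¹ := by
      refine inv_anti₀ (by positivity) ?_
      refine Real.rpow_le_rpow_of_exponent_le hkone ?_
      nlinarith
    have g6 : 2 * ((k : ℝ) ^ (δ * k))⁻¹ ≤ ((k : ℝ) ^ (e' * k))⁻¹ := by
      have g7 : (k : ℝ) ^ (δ * k) = (k : ℝ) ^ ((δ - e') * k) * (k : ℝ) ^ (e' * k) := by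
        rw [← Real.rpow_add hkp]
        congr 1
        ring
      have g8 : (2 : ℝ) ≤ (k : ℝ) ^ ((δ - e') * k) := by
        refine (h5 k (by omega)).trans ?_
        refine Real.rpow_le_rpow_of_exponent_le hkone ?_
        nlinarith
      have g9 : (0 : ℝ) < (k : ℝ) ^ (e' * k) := by positivity
      rw [g7, mul_inv, ← mul_assoc]
      have g10 : 2 * ((k : ℝ) ^ ((δ - e') * k))⁻¹ ≤ 1 := by
        rw [← div_eq_mul_inv, div_le_one (by linarith)]
        exact g8
      calc 2 * ((k : ℝ) ^ ((δ - e') * k))⁻¹ * ((k : ℝ) ^ (e' * k))⁻¹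
          ≤ 1 * ((k : ℝ) ^ (e' * k))⁻¹ := mul_le_mul_of_nonneg_right g10 (by positivity)
        _ = _ := one_mul _
    linarith
  refine ⟨hzero, ?_, fun A _ Z hZ => ?_⟩
  · rw [hreal]
    exact sum_eq_zero fun v hv => by rw [hzero v hv, Int.cast_zero, zero_mul]
  · have e1 : ∀ i ∈ s, (c i : A) * ((M i).map Z).prod = (c i : A) * ((M i).map (ex Z)).prod := by
      intro i hi
      congr 2
      refine List.map_congr_left fun u hu => ?_
      rw [ex_ne Z ((hM i hi).1 u hu).1]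
    rw [sum_congr rfl e1, expand s M c (A := A) (ex Z) (fun i hi =>
      prod_ex hZ (n := b * b + 2) (by omega) (K := (k : ℝ)) hkp.le (r := b) _ (hCl i hi))]
    exact sum_eq_zero fun v hv => by rw [hzero v hv, Int.cast_zero, zero_mul]

end Pool.Agent.NH24.GP
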