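import Pool.Agent.NH24.GP.T

/-!
# Small isobaric relations are consequences of the stuffle product: polynomials
-/

set_option autoImplicit false

namespace Pool.Agent.NH24.GP

open Finset
open Pool.Agent.Y760.ZG (mz)
open Pool.Agent.Y777.AM (ht)
open Pool.Agent.Y760.ZF (sti)
open Pool.Agent.Y777.AM.St (Ad)

/-- the list of the words of a monomial -/
noncomputable def ml (m : List ℕ →₀ ℕ) : List (List ℕ) :=
  m.support.toList.flatMap fun w => List.replicate (m w) w

lemma mem_ml {m : List ℕ →₀ ℕ} {u : List ℕ} (h : u ∈ ml m) : u ∈ m.support := by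
  unfold ml at h
  rw [List.mem_flatMap] at h
  obtain ⟨w, hw, h⟩ := h
  rw [List.eq_of_mem_replicate h]
  exact Finset.mem_toList.1 hw

lemma ml_prod {A : Type} [CommRing A] (m : List ℕ →₀ ℕ) (F : List ℕ → A) :
    ((ml m).map F).prod = ∏ w ∈ m.support, F w ^ m w := by
  unfold ml
  rw [← Finset.prod_map_toList, List.map_flatMap]
  have h1 : ∀ L : List (List ℕ), (L.flatMap fun i => (List.replicate (m i) i).map F).prod =
      (L.map fun i => F i ^ m i).prod := by
    intro L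
    induction L with
    | nil => simp
    | cons a L ih =>
      rw [List.flatMap_cons, List.prod_append, ih, List.map_cons, List.prod_cons,
        List.map_replicate, List.prod_replicate]
  exact h1 _

lemma ml_sum (m : List ℕ →₀ ℕ) : ((ml m).map List.sum).sum = ∑ w ∈ m.support, m w * w.sum := by
  unfold ml
  rw [← Finset.sum_map_toList, List.map_flatMap]
  have h1 : ∀ L : List (List ℕ), (L.flatMap fun i => (List.replicate (m i) i).map List.sum).sum =
      (L.map fun i => m i * i.sum).sum := by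
    intro L
    induction L with
    | nil => simp
    | cons a L ih =>
      rw [List.flatMap_cons, List.sum_append, ih, List.map_cons, List.sum_cons,
        List.map_replicate, List.sum_replicate, smul_eq_mul]
  exact h1 _

lemma ml_aeval {A : Type} [CommRing A] (f : MvPolynomial (List ℕ) ℤ) (F : List ℕ → A) :
    MvPolynomial.aeval F f = ∑ m ∈ f.support, ((f.coeff m : ℤ) : A) * ((ml m).map F).prod := by
  rw [MvPolynomial.aeval_def, MvPolynomial.eval₂_eq]
  exact Finset.sum_congr rfl fun m _ => by rw [ml_prod]; simp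

/-- **polynomials** -/
theorem poly {b : ℕ} (hb : 2 ≤ b) {t g e : ℝ} (κ C : ℝ) (ht0 : 0 < t) (hg : 0 < g)
    (h : ((b : ℝ) - 1) * t + g < 1) (he : ((b : ℝ) - 1) * t < b * e)
    (mzeq : Pool.Agent.NH24.GD.mzv = mz) :
    ∃ k0 : ℕ, ∀ k : ℕ, k0 ≤ k →
      ∀ f : MvPolynomial (List ℕ) ℤ, (∀ m ∈ f.support,
        (∀ w ∈ m.support, w ≠ [] ∧ NW b k ⌊(k : ℝ) ^ t⌋₊ w) ∧ ∑ w ∈ m.support, m w * w.sum = k) →
      ∑ m ∈ f.support, |((f.coeff m : ℤ) : ℝ)| ≤ (2 : ℝ) ^ ((k : ℝ) ^ g) →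
      ∀ H : Finset (List ℕ), (∀ h ∈ H, (∀ m ∈ h, 1 ≤ m) ∧ (∀ x ∈ h.head?, 2 ≤ x) ∧
        (h.sum : ℝ) ≤ κ * k ∧ e * k ≤ ht h) → ∀ β : List ℕ → ℝ, (∀ h ∈ H, |β h| ≤ C ^ k) →
      |MvPolynomial.aeval mz f - ∑ h ∈ H, β h * mz h| ≤ ((k : ℝ) ^ (e * k))⁻¹ →
      MvPolynomial.aeval mz f = 0 ∧
      ∀ (A : Type) [CommRing A] (Z : List ℕ → A),
        (∀ u v, Ad u → Ad v → Z u * Z v = ((sti u v).map Z).sum) →
        MvPolynomial.aeval Z f = 0 := by
  obtain ⟨k0, h0⟩ := transfer hb κ C ht0 hg h he mzeq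
  refine ⟨k0, fun k hk f hf hfC H hH β hβ hsmall => ?_⟩
  rw [ml_aeval] at hsmall
  obtain ⟨-, h2, h3⟩ := h0 k hk (List ℕ →₀ ℕ) f.support ml (fun m hm =>
    ⟨fun u hu => (hf m hm).1 u (mem_ml hu), by rw [ml_sum]; exact (hf m hm).2⟩) (fun m => f.coeff m)
    hfC H hH β hβ hsmall
  refine ⟨by rw [ml_aeval]; exact h2, fun A _ Z hZ => ?_⟩
  rw [ml_aeval]
  exact h3 A Z hZ

end Pool.Agent.NH24.GP
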